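import Pool.Agent.Helper24.KK.GoalsC
import Pool.Agent.Helper49.RS.ScaleEv

set_option autoImplicit false

namespace Pool.Agent.Helper58.KK

open Finset MeasureTheory Filter
open _root_.Pool.Agent.Helper24.KK
open _root_.Pool.Agent.Helper49.RS

theorem bbd : BBD := by
  intro a b ε τ e pX pY _ _ hX hY
  have ha0 := e.a0
  have ha1 := e.a1
  have hb0 := e.b0
  have hb1 := e.b1
  have hε := e.ε0
  have hτe := e.hτ
  have hτ : 0 < τ := by
    by_contra hcon
    have h1 : τ * (1 - b) ≤ 0 := mul_nonpos_of_nonpos_of_nonneg (not_lt.mp hcon) (by linarith)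
    linarith
  have hBt : Tendsto (fun M : ℕ => pB τ M) atTop atTop := by
    have h1 : Tendsto (fun M : ℕ => ((pB τ M : ℕ) : ℝ)) atTop atTop := by
      refine tendsto_atTop_mono (fun M => ?_) (tends_nat_rpow τ hτ)
      exact Nat.le_ceil _
    exact tendsto_natCast_atTop_iff.mp h1
  filter_upwards [hX, hBt.eventually hY, eventually_ge_atTop 1,
    ev_pow (16 / (1 - a)) (1 - a) (1 - a + 2 * ε) (by linarith),
    ev_log (16 * (4 + 8 * τ)) (1 - a + 2 * ε) (by positivity) (by linarith),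
    ev_pow 128 0 (1 - a + 2 * ε) (by linarith)] with M g1 g2 g3 g4 g5 g6
  intro n hn
  have hM1 : (1 : ℝ) ≤ M := by exact_mod_cast g3
  have hM0 : (0 : ℝ) < M := by linarith
  unfold bt
  apply Nat.nth_lt_of_lt_count
  have h1 := good_sum_up g1 ha0.le ha1 M le_rfl
  have h2 : (Nat.count pX n : ℝ) ≤ Nat.count pX M := by
    exact_mod_cast Nat.count_monotone pX hn.le
  have h3 := g2.lo 0 (pB τ M) (Nat.zero_le _) le_rfl
  rw [← Finset.range_eq_Ico, sum_ind_range] at h3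
  have hB0 : (0:ℝ) < pB τ M := by
    have : 0 < pB τ M := Nat.ceil_pos.mpr (Real.rpow_pos_of_pos hM0 _)
    exact_mod_cast this
  have h4 := sum_prb_lower b hb0.le 0 (pB τ M) (pB τ M) (Nat.zero_le _) le_rfl
  rw [← Finset.range_eq_Ico] at h4
  have h5 : (M : ℝ) ^ (1 - a + 2 * ε) ≤ ((pB τ M : ℝ) - (0 : ℕ)) * (pB τ M : ℝ) ^ (-b) := by
    have e1 : ((pB τ M : ℝ) - (0 : ℕ)) * (pB τ M : ℝ) ^ (-b) = (pB τ M : ℝ) ^ (1 - b) := by
      rw [show (1 - b) = 1 + (-b) by ring, Real.rpow_add hB0, Real.rpow_one]; simp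
    rw [e1, ← hτe, Real.rpow_mul hM0.le]
    apply Real.rpow_le_rpow (by positivity) (Nat.le_ceil _) (by linarith)
  have h6 : (pB τ M : ℝ) ≤ 2 * (M : ℝ) ^ τ :=
    ceil_le_two _ (Real.one_le_rpow hM1 hτ.le)
  have h7 : Real.log (pB τ M : ℝ) ≤ 1 + τ * Real.log M := by
    have h8 : Real.log (pB τ M : ℝ) ≤ Real.log (2 * (M : ℝ) ^ τ) := Real.log_le_log hB0 h6
    rw [Real.log_mul (by norm_num) (Real.rpow_pos_of_pos hM0 _).ne', Real.log_rpow hM0] at h8
    have h9 : Real.log 2 ≤ 1 := by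
      have := Real.log_two_lt_d9
      linarith
    linarith
  have hlog : 0 ≤ Real.log (M : ℝ) := Real.log_nonneg hM1
  rw [Real.rpow_zero] at g6
  set X := (M : ℝ) ^ (1 - a + 2 * ε) with hXdef
  have h10 : 2 * ((M : ℝ) ^ (1 - a) / (1 - a)) ≤ X / 8 := by
    have e2 : 16 / (1 - a) * (M : ℝ) ^ (1 - a) = 8 * (2 * ((M : ℝ) ^ (1 - a) / (1 - a))) := by
      ring
    linarith
  have h11 : (Nat.count pX n : ℝ) < Nat.count pY (pB τ M) := by
    nlinarith
  exact_mod_cast h11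

end Pool.Agent.Helper58.KK
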